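import Pool.Agent.H15.KS.Defs
import Pool.Agent.H17.KW.Chain

/-! The relation `IsConn` and the iterated connecting homomorphism. -/

open CategoryTheory CategoryTheory.Limits Abelian

universe u v w

namespace Pool.Agent.H12.KB

noncomputable section

section the

variable {C : Type v} [Category.{w} C] [HasZeroMorphisms C] {A B : C}

theorem the_eq {P : (A ⟶ B) → Prop} {g : A ⟶ B} (h0 : P g) (hu : ∀ g', P g' → g' = g) :
    Pool.Agent.H15.KS.the P = g := hu _ (Pool.Agent.H15.KS.the_spec ⟨g, h0⟩)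

theorem the_mono {A' : C} (m : B ⟶ A') [Mono m] {t : A ⟶ A'} {g : A ⟶ B} (h : g ≫ m = t) :
    Pool.Agent.H15.KS.the (fun g => g ≫ m = t) = g :=
  the_eq h (fun g' h' => by rw [← cancel_mono m, h', h])

end the

section abelian

variable {𝒜 : Type v} [Category.{w} 𝒜] [Abelian 𝒜]

/-- Exactness in the form of the definitions gives the structure `IsRes`. -/
theorem isRes_iff {D : ℕ → 𝒜} {δ : ∀ s, D (s + 1) ⟶ D s} {e : ℕ} {K : 𝒜} {k : K ⟶ D (e + 1)}
    (hz : ∀ s, e + 1 < s → IsZero (D s)) :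
    Pool.Agent.H15.KS.IsRes D δ e k ↔ Pool.Agent.H17.KW.IsRes D δ e k := by
  constructor
  · rintro ⟨h1, ⟨w0, h2⟩, h3, h4⟩
    refine ⟨fun s => ?_, w0, h1, h2, fun s hs => (h3 s hs).2, h4⟩
    by_cases hs : s < e
    · exact (h3 s hs).1
    · exact (hz (s + 2) (by omega)).eq_of_src _ _
  · intro h
    exact ⟨h.mono, ⟨h.w0, h.exact0⟩, fun s hs => ⟨h.w s, h.exact s hs⟩, h.epi⟩

variable [HasExt.{u} 𝒜]

theorem ec_eq {A B C : 𝒜} {f : A ⟶ B} {g : B ⟶ C} {w : f ≫ g = 0}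
    (h : (ShortComplex.mk f g w).ShortExact) :
    Pool.Agent.H15.KS.ec f g = h.extClass := by
  unfold Pool.Agent.H15.KS.ec
  rw [dif_pos ⟨w, h⟩]

/-- The relation `IsConn` is the graph of the homomorphism of a resolution. -/
theorem isConn_iff {D : ℕ → 𝒜} {δ : ∀ s, D (s + 1) ⟶ D s} {e : ℕ} {K : 𝒜} {k : K ⟶ D (e + 1)}
    (h : Pool.Agent.H17.KW.IsRes D δ e k) (T : 𝒜) (z : Ext T (D 0) 0) (y : Ext T K (e + 1)) :
    Pool.Agent.H15.KS.IsConn D δ e k T z y ↔ y = h.cyc T z := by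
  have e0 : Pool.Agent.H15.KS.ec (kernel.ι (δ 0)) (δ 0) =
      Pool.Agent.H17.KW.ec (h.shortExact 0 (Nat.succ_pos e)) :=
    ec_eq (h.shortExact 0 (Nat.succ_pos e))
  have e1 : ∀ s (hs : s + 1 < e + 1), Pool.Agent.H15.KS.ec (kernel.ι (δ (s + 1)))
      (Pool.Agent.H15.KS.the fun g => g ≫ kernel.ι (δ s) = δ (s + 1)) =
      Pool.Agent.H17.KW.ec (h.shortExact (s + 1) hs) := by
    intro s hs
    rw [the_mono (kernel.ι (δ s)) (kernel.lift_ι (δ s) (δ (s + 1)) (h.w s))]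
    exact ec_eq (h.shortExact (s + 1) hs)
  have e2 : Pool.Agent.H15.KS.the (fun g => g ≫ kernel.ι (δ e) = k) = h.toZ :=
    the_mono (kernel.ι (δ e)) (kernel.lift_ι (δ e) k h.w0)
  have hi := h.isIso_toZ
  have e3 : ∀ y : Ext T K (e + 1), y = h.cyc T z ↔
      Pool.Agent.H17.KW.conn D δ h.w T (e + 1) h.shortExact (e + 1) le_rfl z =
        y.comp (Ext.mk₀ h.toZ) rfl := by
    intro y
    have e4 : h.cyc T z =
      (Pool.Agent.H17.KW.conn D δ h.w T (e + 1) h.shortExact (e + 1) le_rfl z).comp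
        (Ext.mk₀ (inv h.toZ)) (add_zero (e + 1)) := rfl
    rw [e4]
    constructor
    · rintro rfl
      rw [Ext.comp_assoc_of_second_deg_zero, Ext.mk₀_comp_mk₀, IsIso.inv_hom_id, Ext.comp_mk₀_id]
    · intro h5
      rw [h5, Ext.comp_assoc_of_second_deg_zero, Ext.mk₀_comp_mk₀, IsIso.hom_inv_id,
        Ext.comp_mk₀_id]
  rw [e3]
  constructor
  · rintro ⟨c, h0, h1, h2⟩
    have key : ∀ s (hs : s + 1 ≤ e + 1), c s =
        Pool.Agent.H17.KW.conn D δ h.w T (e + 1) h.shortExact (s + 1) hs z := by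
      intro s
      induction s with
      | zero =>
        intro hs
        rw [h0, e0]
        rfl
      | succ s ih =>
        intro hs
        rw [h1 s (by omega), ih (by omega), e1 s (by omega)]
        rfl
    refine (key e le_rfl).symm.trans (h2.trans ?_)
    rw [e2]
    rfl
  · intro h5
    have hc : ∃ c : ∀ s : ℕ, Ext T (kernel (δ s)) (s + 1), ∀ s (hs : s + 1 ≤ e + 1), c s =
        Pool.Agent.H17.KW.conn D δ h.w T (e + 1) h.shortExact (s + 1) hs z :=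
      ⟨fun s => if hs : s + 1 ≤ e + 1 then
        Pool.Agent.H17.KW.conn D δ h.w T (e + 1) h.shortExact (s + 1) hs z else 0,
        fun s hs => dif_pos hs⟩
    obtain ⟨c, hc⟩ := hc
    refine ⟨c, ?_, ?_, ?_⟩
    · rw [hc 0 (by omega), e0]
      rfl
    · intro s hs
      rw [hc (s + 1) (by omega), hc s (by omega), e1 s (by omega)]
      rfl
    · refine (hc e le_rfl).trans (h5.trans ?_)
      rw [e2]
      rfl

/-- Existence and uniqueness. -/
theorem isConn_cyc {D : ℕ → 𝒜} {δ : ∀ s, D (s + 1) ⟶ D s} {e : ℕ} {K : 𝒜} {k : K ⟶ D (e + 1)}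
    (h : Pool.Agent.H17.KW.IsRes D δ e k) (T : 𝒜) (z : Ext T (D 0) 0) :
    Pool.Agent.H15.KS.IsConn D δ e k T z (h.cyc T z) := (isConn_iff h T z _).mpr rfl

end abelian

section naturality

variable {𝒜 : Type v} [Category.{w} 𝒜] [Abelian 𝒜] [HasExt.{u} 𝒜]
variable {D D' : ℕ → 𝒜} {δ : ∀ s, D (s + 1) ⟶ D s} {δ' : ∀ s, D' (s + 1) ⟶ D' s}
variable {e : ℕ} {K K' : 𝒜} {k : K ⟶ D (e + 1)} {k' : K' ⟶ D' (e + 1)}

/-- The map on cycles of a morphism of complexes. -/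
def mapZ (α : ∀ s, D s ⟶ D' s) (hα : ∀ s, δ s ≫ α s = α (s + 1) ≫ δ' s) :
    ∀ s, Pool.Agent.H17.KW.Z D δ s ⟶ Pool.Agent.H17.KW.Z D' δ' s
  | 0 => α 0
  | s + 1 => kernel.map (δ s) (δ' s) (α (s + 1)) (α s) (hα s)

omit [HasExt.{u} 𝒜] in
theorem mapZ_ι (α : ∀ s, D s ⟶ D' s) (hα : ∀ s, δ s ≫ α s = α (s + 1) ≫ δ' s) (s : ℕ) :
    mapZ α hα s ≫ Pool.Agent.H17.KW.Zι D' δ' s = Pool.Agent.H17.KW.Zι D δ s ≫ α s := by
  cases s with
  | zero => exact (Category.comp_id _).trans (Category.id_comp _).symm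
  | succ s => exact kernel.lift_ι _ _ _

omit [HasExt.{u} 𝒜] in
theorem toZ_mapZ (w : ∀ s, δ (s + 1) ≫ δ s = 0) (w' : ∀ s, δ' (s + 1) ≫ δ' s = 0)
    (α : ∀ s, D s ⟶ D' s) (hα : ∀ s, δ s ≫ α s = α (s + 1) ≫ δ' s) (s : ℕ) :
    Pool.Agent.H17.KW.toZ D δ w s ≫ mapZ α hα s =
      α (s + 1) ≫ Pool.Agent.H17.KW.toZ D' δ' w' s := by
  rw [← cancel_mono (Pool.Agent.H17.KW.Zι D' δ' s), Category.assoc, mapZ_ι, ← Category.assoc,
    Pool.Agent.H17.KW.toZ_Zι, Category.assoc, Pool.Agent.H17.KW.toZ_Zι, hα]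

theorem conn_natural (h : Pool.Agent.H17.KW.IsRes D δ e k)
    (h' : Pool.Agent.H17.KW.IsRes D' δ' e k') (α : ∀ s, D s ⟶ D' s)
    (hα : ∀ s, δ s ≫ α s = α (s + 1) ≫ δ' s) (T : 𝒜)
    (z : Ext T (Pool.Agent.H17.KW.Z D δ 0) 0) : ∀ s (hs : s ≤ e + 1),
      Pool.Agent.H17.KW.conn D' δ' h'.w T (e + 1) h'.shortExact s hs
        (z.comp (Ext.mk₀ (mapZ α hα 0)) (add_zero 0)) =
      (Pool.Agent.H17.KW.conn D δ h.w T (e + 1) h.shortExact s hs z).comp
        (Ext.mk₀ (mapZ α hα s)) (add_zero s) := by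
  intro s
  induction s with
  | zero => intro hs; rfl
  | succ s ih =>
    intro hs
    rw [Pool.Agent.H17.KW.conn_succ, Pool.Agent.H17.KW.conn_succ, ih (by omega)]
    have h1 := ShortComplex.ShortExact.extClass_naturality (h.shortExact s (by omega))
      (h'.shortExact s (by omega))
      { τ₁ := mapZ α hα (s + 1)
        τ₂ := α (s + 1)
        τ₃ := mapZ α hα s
        comm₁₂ := mapZ_ι α hα (s + 1)
        comm₂₃ := (toZ_mapZ h.w h'.w α hα s).symm }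
    rw [Ext.comp_assoc_of_second_deg_zero, Ext.comp_assoc_of_third_deg_zero]
    exact congrArg (fun t => Ext.comp _ t (rfl : s + 1 = s + 1)) h1.symm

/-- Naturality of the homomorphism of a resolution. -/
theorem cyc_natural (h : Pool.Agent.H17.KW.IsRes D δ e k)
    (h' : Pool.Agent.H17.KW.IsRes D' δ' e k') (α : ∀ s, D s ⟶ D' s)
    (hα : ∀ s, δ s ≫ α s = α (s + 1) ≫ δ' s) (κ : K ⟶ K') (hκ : k ≫ α (e + 1) = κ ≫ k')
    (T : 𝒜) (z : Ext T (D 0) 0) :
    h'.cyc T (z.comp (Ext.mk₀ (α 0)) (add_zero 0)) =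
      (h.cyc T z).comp (Ext.mk₀ κ) (add_zero (e + 1)) := by
  have hi := h.isIso_toZ
  have hi' := h'.isIso_toZ
  have h2 : inv h.toZ ≫ κ = mapZ α hα (e + 1) ≫ inv h'.toZ := by
    rw [IsIso.inv_comp_eq, ← Category.assoc, IsIso.eq_comp_inv]
    rw [← cancel_mono (Pool.Agent.H17.KW.Zι D' δ' (e + 1)), Category.assoc, Category.assoc, mapZ_ι]
    have h3 : h.toZ ≫ Pool.Agent.H17.KW.Zι D δ (e + 1) = k := kernel.lift_ι _ _ _
    have h4 : h'.toZ ≫ Pool.Agent.H17.KW.Zι D' δ' (e + 1) = k' := kernel.lift_ι _ _ _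
    rw [h4, ← Category.assoc, h3, hκ]
  have e1 : h'.cyc T (z.comp (Ext.mk₀ (α 0)) (add_zero 0)) =
      (Pool.Agent.H17.KW.conn D' δ' h'.w T (e + 1) h'.shortExact (e + 1) le_rfl
        (z.comp (Ext.mk₀ (α 0)) (add_zero 0))).comp
        (Ext.mk₀ (inv h'.toZ)) (add_zero (e + 1)) := rfl
  have e2 : h.cyc T z =
      (Pool.Agent.H17.KW.conn D δ h.w T (e + 1) h.shortExact (e + 1) le_rfl z).comp
        (Ext.mk₀ (inv h.toZ)) (add_zero (e + 1)) := rfl
  have key := conn_natural h h' α hα T z (e + 1) le_rfl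
  refine e1.trans ((congrArg (fun t => Ext.comp t (Ext.mk₀ (inv h'.toZ)) (add_zero (e + 1)))
    key).trans ?_)
  rw [e2, Ext.comp_assoc_of_second_deg_zero, Ext.comp_assoc_of_second_deg_zero,
    Ext.mk₀_comp_mk₀, Ext.mk₀_comp_mk₀, h2]

omit [HasExt.{u} 𝒜] in
/-- Transport of resolutions along isomorphisms of complexes. -/
theorem isRes_of_iso (h : Pool.Agent.H17.KW.IsRes D δ e k) (α : ∀ s, D s ≅ D' s)
    (hα : ∀ s, δ s ≫ (α s).hom = (α (s + 1)).hom ≫ δ' s) (κ : K ≅ K')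
    (hκ : k ≫ (α (e + 1)).hom = κ.hom ≫ k') : Pool.Agent.H17.KW.IsRes D' δ' e k' := by
  have w : ∀ s, δ' (s + 1) ≫ δ' s = 0 := fun s => by
    rw [← cancel_epi (α (s + 1 + 1)).hom, ← Category.assoc, ← hα, Category.assoc, ← hα,
      ← Category.assoc, h.w, zero_comp, comp_zero]
  have w0 : k' ≫ δ' e = 0 := by
    rw [← cancel_epi κ.hom, ← Category.assoc, ← hκ, Category.assoc, ← hα,
      ← Category.assoc, h.w0, zero_comp, comp_zero]
  refine ⟨w, w0, ?_, ?_, fun s hs => ?_, ?_⟩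
  · have h1 : Mono (κ.hom ≫ k') := by
      rw [← hκ]
      have := h.mono
      exact mono_comp _ _
    have h2 : k' = κ.inv ≫ κ.hom ≫ k' := by rw [Iso.inv_hom_id_assoc]
    rw [h2]
    exact mono_comp _ _
  · exact ShortComplex.exact_of_iso (ShortComplex.isoMk κ (α (e + 1)) (α e) hκ.symm (hα e).symm)
      h.exact0
  · exact ShortComplex.exact_of_iso (ShortComplex.isoMk (α (s + 1 + 1)) (α (s + 1)) (α s)
      (hα (s + 1)).symm (hα s).symm) (h.exact s hs)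
  · have h1 : Epi ((α (0 + 1)).hom ≫ δ' 0) := by
      rw [← hα]
      have := h.epi
      exact epi_comp _ _
    exact epi_of_epi (α (0 + 1)).hom (δ' 0)

end naturality

end

end Pool.Agent.H12.KB
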