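import Pool.Agent.H12.KB.Cyc

/-! The homomorphism from cycles to cohomology: comparison of the two forms, second part. -/

open CategoryTheory CategoryTheory.Limits Abelian AlgebraicGeometry TopologicalSpace Opposite
open Pool.Agent.H15.KS (ap onSecs secs toH one ZZ H AbSh IsConn the onH)

universe u v w

namespace Pool.Agent.H12.KB

noncomputable section

section gen

variable {𝒜 : Type v} [Category.{w} 𝒜] [Abelian 𝒜] [HasExt.{u} 𝒜]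
variable {D : ℕ → 𝒜} {δ : ∀ s, D (s + 1) ⟶ D s} {e : ℕ} {K : 𝒜} {k : K ⟶ D (e + 1)}

/-- The homomorphism of a resolution. -/
def cy (h : Pool.Agent.H17.KW.IsRes D δ e k) (T : 𝒜) : Ext T (D 0) 0 →+ Ext T K (e + 1) := h.cyc T

theorem cy_iff (h : Pool.Agent.H17.KW.IsRes D δ e k) (T : 𝒜) (z : Ext T (D 0) 0)
    (y : Ext T K (e + 1)) : IsConn D δ e k T z y ↔ y = cy h T z := isConn_iff h T z y

end gen

section sheaves

theorem ap_comp {A B C : AddCommGrpCat.{u}} (f : A ⟶ B) (g : B ⟶ C) (x : A) :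
    ap (f ≫ g) x = ap g (ap f x) := rfl

variable {X : Scheme.{u}}

/-- The comparison of the cohomology groups with the `Ext` groups. -/
def hx (F : AbSh X) (n : ℕ) : H F n ≃+ Ext (ZZ X) F n := AddEquiv.refl _

/-- A homomorphism of `Ext` groups as a homomorphism of cohomology groups. -/
def kk {F G : AbSh X} {n m : ℕ} (f : Ext (ZZ X) F n →+ Ext (ZZ X) G m) : H F n ⟶ H G m :=
  AddCommGrpCat.ofHom (X := H F n) (Y := H G m) f

theorem ap_kk {F G : AbSh X} {n m : ℕ} (f : Ext (ZZ X) F n →+ Ext (ZZ X) G m) (z : H F n) :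
    hx G m (ap (kk f) z) = f (hx F n z) := rfl

variable {G : ℕ → AbSh X} {δ : ∀ s, G (s + 1) ⟶ G s} {e : ℕ} {L : AbSh X} {k : L ⟶ G (e + 1)}

/-- The homomorphism of the resolution. -/
def cc (h : Pool.Agent.H17.KW.IsRes G δ e k) : secs (G 0) ⊤ ⟶ H L (e + 1) :=
  g0 (G 0) ≫ kk (cy h (ZZ X))

theorem cc_apply (h : Pool.Agent.H17.KW.IsRes G δ e k) (z : secs (G 0) ⊤) :
    hx L (e + 1) (ap (cc h) z) = cy h (ZZ X) (hx (G 0) 0 ((e0 (G 0)).symm z)) :=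
  (congrArg (hx L (e + 1)) (ap_comp (g0 (G 0)) (kk (cy h (ZZ X))) z)).trans
    (ap_kk (cy h (ZZ X)) ((e0 (G 0)).symm z))

theorem conn_iff (h : Pool.Agent.H17.KW.IsRes G δ e k) (z : secs (G 0) ⊤) (y : H L (e + 1)) :
    IsConn G δ e k (ZZ X) (hx (G 0) 0 (ap (toH (G 0)) z)) (hx L (e + 1) y) ↔
      y = ap (cc h) z := by
  rw [cy_iff h, toH_apply, ← cc_apply, (hx L (e + 1)).injective.eq_iff]

/-- The relation with the cohomology groups in place of the `Ext` groups. -/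
def Cn (G : ℕ → AbSh X) (δ : ∀ s, G (s + 1) ⟶ G s) (e : ℕ) {L : AbSh X} (k : L ⟶ G (e + 1))
    (z : H (G 0) 0) (y : H L (e + 1)) : Prop := IsConn G δ e k (ZZ X) z y

theorem cn_iff (z : H (G 0) 0) (y : H L (e + 1)) :
    Cn G δ e k z y ↔ IsConn G δ e k (ZZ X) (hx (G 0) 0 z) (hx L (e + 1) y) := Iff.rfl

theorem the_cyc (h : Pool.Agent.H17.KW.IsRes G δ e k) :
    the (fun g : secs (G 0) ⊤ ⟶ H L (e + 1) => ∀ z, Cn G δ e k (ap (toH (G 0)) z) (ap g z)) =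
      cc h := by
  refine the_eq (fun z => (cn_iff _ _).mpr ((conn_iff h z _).mpr rfl)) (fun g hg => ?_)
  refine AddCommGrpCat.hom_ext (AddMonoidHom.ext fun z => ?_)
  exact (conn_iff h z _).mp ((cn_iff _ _).mp (hg z))

theorem cy_natural {𝒜 : Type v} [Category.{w} 𝒜] [Abelian 𝒜] [HasExt.{u} 𝒜]
    {D D' : ℕ → 𝒜} {δ : ∀ s, D (s + 1) ⟶ D s} {δ' : ∀ s, D' (s + 1) ⟶ D' s}
    {e : ℕ} {K K' : 𝒜} {k : K ⟶ D (e + 1)} {k' : K' ⟶ D' (e + 1)}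
    (h : Pool.Agent.H17.KW.IsRes D δ e k)
    (h' : Pool.Agent.H17.KW.IsRes D' δ' e k') (α : ∀ s, D s ⟶ D' s)
    (hα : ∀ s, δ s ≫ α s = α (s + 1) ≫ δ' s) (κ : K ⟶ K') (hκ : k ≫ α (e + 1) = κ ≫ k')
    (T : 𝒜) (z : Ext T (D 0) 0) :
    cy h' T (z.comp (Ext.mk₀ (α 0)) (add_zero 0)) =
      (cy h T z).comp (Ext.mk₀ κ) (add_zero (e + 1)) := cyc_natural h h' α hα κ hκ T z

theorem postcomp_mk₀ {𝒜 : Type v} [Category.{w} 𝒜] [Abelian 𝒜] [HasExt.{u} 𝒜] {A B C : 𝒜}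
    (κ : B ⟶ C) {n : ℕ} (y : Ext A B n) :
    (Ext.mk₀ κ).postcomp A (add_zero n) y = y.comp (Ext.mk₀ κ) (add_zero n) := rfl

theorem onH_eq {F G : AbSh X} (κ : F ⟶ G) (n : ℕ) :
    onH κ n = kk ((Ext.mk₀ κ).postcomp (ZZ X) (add_zero n)) := rfl

theorem hx_onH {F G : AbSh X} (κ : F ⟶ G) (n : ℕ) (y : H F n) :
    hx G n (ap (onH κ n) y) = (hx F n y).comp (Ext.mk₀ κ) (add_zero n) :=
  (congrArg (fun t => hx G n (ap t y)) (onH_eq κ n)).trans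
    ((ap_kk ((Ext.mk₀ κ).postcomp (ZZ X) (add_zero n)) y).trans (postcomp_mk₀ κ (hx F n y)))

theorem hx_m0 {F : AbSh X} (φ : ZZ X ⟶ F) : hx F 0 (m0 φ) = Ext.mk₀ φ := rfl

theorem onH_m0 {F G : AbSh X} (κ : F ⟶ G) (φ : ZZ X ⟶ F) :
    ap (onH κ 0) (m0 φ) = m0 (φ ≫ κ) := by
  apply (hx G 0).injective
  rw [hx_onH, hx_m0, hx_m0]
  exact Ext.mk₀_comp_mk₀ φ κ

theorem e0_natural {F G : AbSh X} (κ : F ⟶ G) (s : secs F ⊤) :
    (e0 G).symm (ap (onSecs κ ⊤) s) = ap (onH κ 0) ((e0 F).symm s) := by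
  obtain ⟨φ, hφ⟩ := m0_surj ((e0 F).symm s)
  have h1 : s = ap (onSecs φ ⊤) (one X) := by
    rw [← e0_m0, hφ, AddEquiv.apply_symm_apply]
  have h2 : ap (onSecs κ ⊤) (ap (onSecs φ ⊤) (one X)) = ap (onSecs (φ ≫ κ) ⊤) (one X) := rfl
  rw [h1, h2, e0_symm, e0_symm, onH_m0]

variable {G' : ℕ → AbSh X} {δ' : ∀ s, G' (s + 1) ⟶ G' s} {L' : AbSh X} {k' : L' ⟶ G' (e + 1)}

/-- Naturality of the homomorphism from sections to cohomology. -/
theorem cc_natural (h : Pool.Agent.H17.KW.IsRes G δ e k) (h' : Pool.Agent.H17.KW.IsRes G' δ' e k')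
    (α : ∀ s, G s ⟶ G' s) (hα : ∀ s, δ s ≫ α s = α (s + 1) ≫ δ' s) (κ : L ⟶ L')
    (hκ : k ≫ α (e + 1) = κ ≫ k') (z : secs (G 0) ⊤) :
    ap (onH κ (e + 1)) (ap (cc h) z) = ap (cc h') (ap (onSecs (α 0) ⊤) z) := by
  apply (hx L' (e + 1)).injective
  rw [hx_onH, cc_apply, cc_apply, e0_natural, hx_onH, cy_natural h h' α hα κ hκ]

end sheaves

end

end Pool.Agent.H12.KB
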