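import Pool.Agent.H12.KB.Abel
import Pool.Agent.H15.KS.Defs2
import Pool.Agent.H17.KW.Stmt

/-! The homomorphism from cycles to cohomology: comparison of the two forms. -/

open CategoryTheory CategoryTheory.Limits Abelian AlgebraicGeometry TopologicalSpace Opposite
open Pool.Agent.H15.KS (ap onSecs secs toH one)

universe u v w

namespace Pool.Agent.H12.KB

noncomputable section

section zero

theorem addEquiv₀_mk₀ {C : Type v} [Category.{w} C] [Abelian C] [HasExt.{u} C] {A B : C}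
    (φ : A ⟶ B) : Ext.addEquiv₀ (Ext.mk₀ φ) = φ := by
  apply (Ext.mk₀_bijective _ B).injective
  exact Ext.mk₀_homEquiv₀_apply _

variable {X : Scheme.{u}}

theorem equiv₀_mk₀ (F : Pool.Agent.H15.KS.AbSh X)
    (φ : (constantSheaf (Opens.grothendieckTopology X.toTopCat)
      AddCommGrpCat.{u}).obj (AddCommGrpCat.of (ULift.{u} ℤ)) ⟶ F) :
    Sheaf.H.equiv₀ F (T := (⊤ : Opens X.toTopCat)) isTerminalTop (Ext.mk₀ φ) =
      (φ.hom.app (op ⊤)) ((toSheafify (Opens.grothendieckTopology X.toTopCat)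
        ((Functor.const _).obj (AddCommGrpCat.of (ULift.{u} ℤ)))).app (op ⊤) (ULift.up 1)) := by
  have h1 : Sheaf.H.equiv₀ F (T := (⊤ : Opens X.toTopCat)) isTerminalTop (Ext.mk₀ φ) =
    AddCommGrpCat.uliftZMultiplesAddEquiv _ (((constantSheafAdj (Opens.grothendieckTopology X)
      AddCommGrpCat.{u} isTerminalTop).homAddEquiv _ F) (Ext.addEquiv₀ (Ext.mk₀ φ))) := rfl
  rw [h1, addEquiv₀_mk₀]
  have h2 : ((constantSheafAdj (Opens.grothendieckTopology X) AddCommGrpCat.{u}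
    isTerminalTop).homAddEquiv _ F) φ = (constantSheafAdj (Opens.grothendieckTopology X)
      AddCommGrpCat.{u} isTerminalTop).homEquiv _ F φ := rfl
  rw [h2]
  rw [Adjunction.homEquiv_unit]
  simp [AddCommGrpCat.uliftZMultiplesAddEquiv, constantSheafAdj]
  rfl

/-- Sections of a sheaf as classes of degree zero. -/
def e0 (F : Pool.Agent.H15.KS.AbSh X) : Pool.Agent.H15.KS.H F 0 ≃+ secs F ⊤ :=
  Sheaf.H.equiv₀ F (T := (⊤ : Opens X.toTopCat)) isTerminalTop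

/-- A morphism as a class of degree zero. -/
def m0 {F : Pool.Agent.H15.KS.AbSh X} (φ : Pool.Agent.H15.KS.ZZ X ⟶ F) :
    Pool.Agent.H15.KS.H F 0 := Abelian.Ext.mk₀ φ

theorem m0_surj {F : Pool.Agent.H15.KS.AbSh X} (y : Pool.Agent.H15.KS.H F 0) :
    ∃ φ : Pool.Agent.H15.KS.ZZ X ⟶ F, m0 φ = y :=
  (Ext.mk₀_bijective (Pool.Agent.H15.KS.ZZ X) F).surjective y

theorem e0_m0 (F : Pool.Agent.H15.KS.AbSh X) (φ : Pool.Agent.H15.KS.ZZ X ⟶ F) :
    e0 F (m0 φ) = ap (onSecs φ ⊤) (one X) := equiv₀_mk₀ F φ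

theorem e0_symm (F : Pool.Agent.H15.KS.AbSh X) (φ : Pool.Agent.H15.KS.ZZ X ⟶ F) :
    (e0 F).symm (ap (onSecs φ ⊤) (one X)) = m0 φ := by
  rw [← e0_m0, AddEquiv.symm_apply_apply]

theorem toH_aux (F : Pool.Agent.H15.KS.AbSh X) (g : secs F ⊤ ⟶ Pool.Agent.H15.KS.H F 0)
    (hg : ∀ φ : Pool.Agent.H15.KS.ZZ X ⟶ F, ap g (ap (onSecs φ ⊤) (one X)) = m0 φ)
    (s : secs F ⊤) : ap g s = (e0 F).symm s := by
  obtain ⟨φ, hφ⟩ := m0_surj ((e0 F).symm s)
  have h1 : ap (onSecs φ ⊤) (one X) = s := by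
    rw [← e0_m0, hφ, AddEquiv.apply_symm_apply]
  rw [← h1, hg, e0_symm]

/-- The homomorphism given by the isomorphism of the group of global sections with `H^0`. -/
def g0 (F : Pool.Agent.H15.KS.AbSh X) : secs F ⊤ ⟶ Pool.Agent.H15.KS.H F 0 :=
  AddCommGrpCat.ofHom (X := secs F ⊤) (Y := Pool.Agent.H15.KS.H F 0) (e0 F).symm.toAddMonoidHom

theorem ap_g0 (F : Pool.Agent.H15.KS.AbSh X) (s : secs F ⊤) : ap (g0 F) s = (e0 F).symm s := rfl

theorem toH_spec (F : Pool.Agent.H15.KS.AbSh X) (φ : Pool.Agent.H15.KS.ZZ X ⟶ F) :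
    ap (toH F) (ap (onSecs φ ⊤) (one X)) = m0 φ :=
  Pool.Agent.H15.KS.the_spec (P := fun g : secs F ⊤ ⟶ Pool.Agent.H15.KS.H F 0 =>
    ∀ φ : Pool.Agent.H15.KS.ZZ X ⟶ F, ap g (ap (onSecs φ ⊤) (one X)) = m0 φ)
    ⟨g0 F, fun φ => (ap_g0 F _).trans (e0_symm F φ)⟩ φ

/-- The canonical isomorphism of the group of global sections with `H^0`. -/
theorem toH_apply (F : Pool.Agent.H15.KS.AbSh X) (s : secs F ⊤) :
    ap (toH F) s = (e0 F).symm s := toH_aux F (toH F) (toH_spec F) s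

theorem secH_eq (F : Pool.Agent.H15.KS.AbSh X) (s : secs F ⊤) :
    Pool.Agent.H17.KW.secH X F s = (e0 F).symm s := rfl

end zero

end

end Pool.Agent.H12.KB
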