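import Pool.Agent.H12.KB.Main
import Pool.Agent.H84.KB.S
import Pool.Agent.H15.KS.Fin1

/-! The homomorphism from cycles to cohomology: the form used in the final assembly. -/

open CategoryTheory CategoryTheory.Limits Abelian AlgebraicGeometry TopologicalSpace Opposite
open Pool.Agent.H15.KS (ap onSecs secs onH C Cyc cyc famC oldC)
open Pool.Agent.H84.KB (isoC isoK)
open Pool.Agent.H17.KW (D ZSh secH)

universe u

namespace Pool.Agent.H12.KB

noncomputable section

variable {X : Scheme.{u}} [IsNoetherian X] {e : ℕ}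

theorem famC_eq (z : Cyc X e) : ap (onSecs (isoC X (e + 1) 0).hom ⊤) z =
    (Pool.Agent.H17.KW.toSec X (e + 1) (famC z) : secs (D X (e + 1) 0) ⊤) := rfl

theorem hcyc (h : Pool.Agent.H17.KW.Gersten X e) (z : Cyc X e) :
    ap (onH (isoK X (e + 1)).hom (e + 1)) (ap (cyc X e) z) = oldC h z := by
  refine (cyc_compare (fun s => isoC X (e + 1) s) (isoK X (e + 1))
    (fun s => Pool.Agent.H84.KB.dC_isoC X (e + 1) s) (Pool.Agent.H84.KB.top_isoC X (e + 1))
    h z).trans ?_
  exact congrArg (fun t => Pool.Agent.H17.KW.IsRes.cyc h (ZSh X) (secH X (D X (e + 1) 0) t))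
    (famC_eq z)

end

end Pool.Agent.H12.KB
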