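import Pool.Agent.H12.KB.Conn

/-! Comparison of the Gersten conjecture and of the homomorphism from cycles to cohomology. -/

open CategoryTheory CategoryTheory.Limits Abelian AlgebraicGeometry TopologicalSpace Opposite
open Pool.Agent.H15.KS (ap onSecs secs toH one ZZ H AbSh IsConn the onH C dC top K Cyc cyc)
open Pool.Agent.H17.KW (D dD topSh KSh ZSh secH)

universe u v w

namespace Pool.Agent.H12.KB

noncomputable section

section abstract

variable {X : Scheme.{u}}
variable {G : ℕ → AbSh X} {δ : ∀ s, G (s + 1) ⟶ G s} {e : ℕ} {L : AbSh X} {k : L ⟶ G (e + 1)}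

/-- The homomorphism in the form of the statement of the theorem. -/
theorem cc_KW (h : Pool.Agent.H17.KW.IsRes G δ e k) (s : secs (G 0) ⊤) :
    ap (cc h) s = Pool.Agent.H17.KW.IsRes.cyc h (ZSh X) (secH X (G 0) s) :=
  cc_apply h s

end abstract

section zero

variable {X : Scheme.{u}} [IsNoetherian X]

/-- The terms of the complex with index larger than `d` are zero. -/
theorem isZero_D (d s : ℕ) (h : d < s) : IsZero (D X d s) := by
  have h0 : IsEmpty (Pool.Agent.H17.KW.Pts X d s) := by
    refine ⟨fun v => ?_⟩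
    have h1 := v.2
    have h2 : (s : ℕ∞) ≤ (d : ℕ∞) := by
      rw [← h1]
      exact le_add_self
    have h3 : s ≤ d := by exact_mod_cast h2
    omega
  rw [IsZero.iff_id_eq_zero]
  refine Sheaf.hom_ext (NatTrans.ext (funext fun U => ?_))
  refine AddCommGrpCat.hom_ext (AddMonoidHom.ext fun f => ?_)
  exact Subtype.ext (DFinsupp.ext fun i => h0.elim i)

end zero

section cyc

variable {X : Scheme.{u}} [IsNoetherian X] {e : ℕ}

/-- The homomorphism from cycles to cohomology is the one of the resolution. -/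
theorem cyc_eq_cc (h : Pool.Agent.H17.KW.IsRes (C X (e + 1)) (dC X (e + 1)) e (top X (e + 1))) :
    cyc X e = cc h := the_cyc h

variable (α : ∀ s, C X (e + 1) s ≅ D X (e + 1) s) (κ : K X (e + 1) ≅ KSh X (e + 1))
  (hα : ∀ s, dC X (e + 1) s ≫ (α s).hom = (α (s + 1)).hom ≫ dD X (e + 1) s)
  (hκ : top X (e + 1) ≫ (α (e + 1)).hom = κ.hom ≫ topSh X (e + 1))

include α κ hα hκ

theorem isRes_C (h : Pool.Agent.H17.KW.Gersten X e) :
    Pool.Agent.H17.KW.IsRes (C X (e + 1)) (dC X (e + 1)) e (top X (e + 1)) := by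
  refine isRes_of_iso h (fun s => (α s).symm) (fun s => ?_) κ.symm ?_
  · show dD X (e + 1) s ≫ (α s).inv = (α (s + 1)).inv ≫ dC X (e + 1) s
    rw [Iso.comp_inv_eq, Category.assoc, hα, Iso.inv_hom_id_assoc]
  · show topSh X (e + 1) ≫ (α (e + 1)).inv = κ.inv ≫ top X (e + 1)
    rw [Iso.comp_inv_eq, Category.assoc, hκ, Iso.inv_hom_id_assoc]

/-- The two forms of the Gersten conjecture are equivalent. -/
theorem gersten_iff : Pool.Agent.H15.KS.Gersten X e ↔ Pool.Agent.H17.KW.Gersten X e := by
  have hz : ∀ s, e + 1 < s → IsZero (C X (e + 1) s) := fun s hs =>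
    (isZero_D (X := X) (e + 1) s hs).of_iso (α s)
  constructor
  · intro h
    exact isRes_of_iso ((isRes_iff hz).mp h) α hα κ hκ
  · intro h
    exact (isRes_iff hz).mpr (isRes_C α κ hα hκ h)

/-- The two forms of the homomorphism from cycles to cohomology agree. -/
theorem cyc_compare (h : Pool.Agent.H17.KW.Gersten X e) (z : Cyc X e) :
    ap (onH κ.hom (e + 1)) (ap (cyc X e) z) =
      Pool.Agent.H17.KW.IsRes.cyc h (ZSh X)
        (secH X (D X (e + 1) 0) (ap (onSecs (α 0).hom ⊤) z)) := by
  have h' := isRes_C α κ hα hκ h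
  rw [cyc_eq_cc h']
  exact (cc_natural h' h (fun s => (α s).hom) hα κ.hom hκ z).trans (cc_KW h _)

end cyc

end

end Pool.Agent.H12.KB
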